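import Pool.Agent.Y103.Sq.Final
import Pool.Agent.Y103.Hk.Main2

/-!
# Tate classes on products with arbitrary operators, both inclusions
-/

set_option autoImplicit false

open CategoryTheory AlgebraicGeometry NumberField
open scoped TensorProduct

universe u v

namespace Pool.Agent.Q59.KT

open Pool.Agent.H914 Pool.Agent.H914.VarClass Pool.Agent.H914.VarClass.Obj
  Pool.Agent.H914.WeilCohomology Pool.Agent.W534 Pool.Agent.W517.K3 Pool.Agent.Y138.KC
  Pool.Agent.Y103.Hk Pool.Agent.Y103.Sh Pool.Agent.W458.RK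

theorem tateTimesAll_of {k : Type u} [Field k] {𝒱 : VarClass k} {ops : CycleOps 𝒱}
    {W : WeilCohomology.{u, v} ops} {p : ℕ} [Fact p.Prime] {Φ : FrobSystem W p} {PP PP' : W.K → Prop}
    {Z : 𝒱.Obj} (hT : Pool.Agent.TH121.KT.TateTimesP Φ PP Z) (h : ∀ ν, PP' ν → PP ν) :
    ∀ s : ℕ, 0 < s → ∀ (V : Type v) [AddCommGroup V] [Module W.K V] [Module.Finite W.K V]
    (G : Module.End W.K V), (∀ ν, G.HasEigenvalue ν → PP' ν) →
      TensorSplits (W.map (Pool.Agent.W534.iter (Φ.Fr Z) s)).toLinearMap G ((p : W.K) ^ (Φ.e Z * s))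
        fun i => {y | ∃ z, Z.IsCyc i z ∧ y = W.cl Z z} := by
  intro s hs V _ _ _ G hG c a x
  have ec : ((p : W.K) ^ (Φ.e Z * s)) = (Pool.Agent.W534.card Φ Z s : W.K) := by
    rw [Pool.Agent.W534.card, Nat.cast_pow]
  rw [ec]
  constructor
  · intro hx
    refine Submodule.span_le.2 ?_ (hT s hs V G (fun ν hν => h ν (hG ν hν)) c a x hx)
    rintro _ ⟨i, y, v, hy, hv, rfl⟩
    induction hy using Submodule.span_induction with
    | mem y hy =>
      obtain ⟨z, hz, rfl⟩ := hy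
      exact Submodule.subset_span ⟨i, _, v, ⟨z, hz, rfl⟩, hv, rfl⟩
    | zero => rw [TensorProduct.zero_tmul]; exact Submodule.zero_mem _
    | add y z _ _ hy hz => rw [TensorProduct.add_tmul]; exact Submodule.add_mem _ hy hz
    | smul t y _ hy => rw [← TensorProduct.smul_tmul']; exact Submodule.smul_mem _ _ hy
  · intro hx
    have hQ : (Pool.Agent.W534.card Φ Z s : W.K) ≠ 0 := card_ne Φ s
    have h1 : Submodule.span W.K {w | ∃ (i : ℕ) (y : W.H Z) (v : V),
        y ∈ {y | ∃ z, Z.IsCyc i z ∧ y = W.cl Z z} ∧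
        Killed G ((Pool.Agent.W534.card Φ Z s : W.K) ^ (c - i)) a v ∧ w = y ⊗ₜ[W.K] v} ≤
        killedSub (TensorProduct.map (frob Φ Z s) G) ((Pool.Agent.W534.card Φ Z s : W.K) ^ c) a := by
      refine Submodule.span_le.2 ?_
      rintro _ ⟨i, y, v, ⟨z, hz, rfl⟩, ⟨N, hN, hv⟩, rfl⟩
      obtain ⟨M, hM, hy⟩ := killed_one_iff.1
        (cyc_killed (Z := Z) Φ (s := s) (Submodule.subset_span ⟨z, hz, rfl⟩ : W.cl Z z ∈ cycSub W Z i))
      have hc : (Pool.Agent.W534.card Φ Z s : W.K) ^ i * (Pool.Agent.W534.card Φ Z s : W.K) ^ (c - i) =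
          (Pool.Agent.W534.card Φ Z s : W.K) ^ c := by
        rw [← zpow_natCast, ← zpow_add₀ hQ]
        congr 1
        ring
      refine ⟨M * N, Nat.mul_pos hM hN, ?_⟩
      have hy' : (frob Φ Z s ^ (M * N)) (W.cl Z z) =
          ((Pool.Agent.W534.card Φ Z s : W.K) ^ i) ^ (M * N) • W.cl Z z := by
        rw [pow_mul, pow_mul, Module.End.pow_apply]
        exact Pool.Agent.W534.iterate_eig (fun a x => map_smul (frob Φ Z s ^ M) a x) hy N
      have hv' := killed_mul hv M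
      rw [mul_comm N M] at hv'
      have h2 := killed_tmul (G := G) (β := (Pool.Agent.W534.card Φ Z s : W.K) ^ (c - i)) hy' a v
      rw [hc] at h2
      rw [h2, hv', TensorProduct.tmul_zero, smul_zero]
    exact h1 hx

end Pool.Agent.Q59.KT
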